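import Pool.Agent.H612.BB.Asm
import Pool.Agent.H612.BB.Deg
import Pool.Agent.H612.BB.T_BIG
import Pool.Agent.H612.BB.T_CHN
import Pool.Agent.H612.BB.T_COD
import Pool.Agent.H612.BB.T_EXT
import Pool.Agent.H612.BB.T_KEY
import Pool.Agent.H612.BB.T_LEX
import Pool.Agent.H612.BB.T_MO1
import Pool.Agent.H612.BB.T_MOB
import Pool.Agent.H612.BB.T_ORI
import Pool.Agent.H612.BB.T_PO2
import Pool.Agent.H612.BB.T_PO3
import Pool.Agent.H612.BB.T_REG
import Pool.Agent.H612.BB.T_SEG
import Pool.Agent.H612.BB.T_SGN
import Pool.Agent.H612.BB.T_SIM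
import Pool.Agent.H612.BB.T_SIZ
import Pool.Agent.H612.BB.T_SOL
import Pool.Agent.H612.BB.T_TRI
import Pool.Agent.H622R2.CoNP
import Pool.Agent.ER.Dec

/-!
# Boundary-boundary guarding of simple polygons is in NP

`BBGuard (l, k)`: the list `l` of rational points is the list of corners (in boundary order) of a
simple polygon `P` (the compact region bounded by the simple closed polygonal curve through these
points) and there is a set of exactly `k` points of the boundary of `P` such that every point of
the boundary is seen from one of them (the segment lies in `P`).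
-/

namespace Pool.Agent.Results.MP_1b4b80_lc.GuardingInNP

open Vis124 H612BB Pool.Agent.NPC Pool.Agent.NPC.ER

/-- The boundary-boundary guarding problem is in `NP`; hence it is `∃ℝ`-complete only if `∃ℝ` is
contained in `NP`; and `k` boundary guards of a polygon with rational corners can always be replaced
by at most `k` boundary guards whose coordinates are algebraic numbers of degree at most 2. -/
theorem result :
    InNPP BBGuard ∧
    (ERComplete (lang BBGuard) → ∀ L : Set (List Bool), InER L → InNP L) ∧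
    (∀ (l : List (ℚ × ℚ)) (P : Set (ℝ × ℝ)), IsSimplePolygon (vert l) P →
      ∀ G : Finset (ℝ × ℝ), (G : Set (ℝ × ℝ)) ⊆ frontier P →
        (∀ t ∈ frontier P, ∃ g ∈ G, segment ℝ g t ⊆ P) →
        ∃ G' : Finset (ℝ × ℝ), G'.card ≤ G.card ∧ (G' : Set (ℝ × ℝ)) ⊆ frontier P ∧
          (∀ t ∈ frontier P, ∃ g ∈ G', segment ℝ g t ⊆ P) ∧ ∀ g ∈ G', Quad g.1 ∧ Quad g.2) := by
  have hCSP : S_CSP := CSP_of CHN_holds EXT_holds TRI_holds
  have hSOL : S_SOL := SOL_holds VB_holds (MOB_holds LEX_holds MO1_holds) COD_holds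
  have hSND : S_SND := SND_of SGN_holds ORI_holds EXT_holds TRI_holds
  have hCM1 : S_CM1 := CM1_of hCSP hSOL SGN_holds ORI_holds
  have hNP : InNPP BBGuard := inNP_of (REG_holds KEY_holds) (SIM_holds SEG_holds) BIG_holds
    SCL_holds hSND hCM1 SCB_holds SIZ_holds PO2_holds PO3_holds
  refine ⟨hNP, fun hc L hL => ?_, ?_⟩
  · exact Pool.Agent.H622R2.InNP.of_reduces (hc.2 L hL) hNP
  · intro l P hP G hG hs
    exact degree_of hCSP hSOL EXT_holds TRI_holds l P G.card hP ⟨G, rfl, hG, hs⟩

end Pool.Agent.Results.MP_1b4b80_lc.GuardingInNP
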